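import Mathlib

/-!
Compact polyhedra, PL homeomorphisms, joins, suspensions, vertex links and the recursive
notion of a space of type `n`.
-/

open Set

namespace Pool.Agent.FinType

/-- A subset of some Euclidean space `ℝ^N`. -/
structure Space where
  /-- the dimension of the ambient Euclidean space -/
  dim : ℕ
  /-- the underlying set -/
  carrier : Set (Fin dim → ℝ)

/-- A (closed) simplex of `ℝ^N`: the convex hull of a nonempty finite affinely independent set. -/
def IsSimplex {N : ℕ} (S : Set (Fin N → ℝ)) : Prop :=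
  ∃ s : Finset (Fin N → ℝ), s.Nonempty ∧ AffineIndependent ℝ ((↑) : s → Fin N → ℝ) ∧
    S = convexHull ℝ (s : Set (Fin N → ℝ))

/-- A compact (finite) polyhedron in `ℝ^N`: a finite union of simplices. -/
def IsPolyhedron {N : ℕ} (P : Set (Fin N → ℝ)) : Prop :=
  ∃ F : Set (Set (Fin N → ℝ)), F.Finite ∧ (∀ S ∈ F, IsSimplex S) ∧ P = ⋃₀ F

/-- The graph in `ℝ^(a+b)` of a map defined on `P ⊆ ℝ^a` with values in `ℝ^b`. -/
def graph {a b : ℕ} (P : Set (Fin a → ℝ)) (f : (Fin a → ℝ) → (Fin b → ℝ)) :
    Set (Fin (a + b) → ℝ) :=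
  (fun x => Fin.append x (f x)) '' P

/-- `P` and `Q` are PL isomorphic: there is a continuous bijection from `P` onto `Q` whose graph is
a compact polyhedron. -/
def PLIso (P Q : Space) : Prop :=
  ∃ f : (Fin P.dim → ℝ) → (Fin Q.dim → ℝ), BijOn f P.carrier Q.carrier ∧
    ContinuousOn f P.carrier ∧ IsPolyhedron (graph P.carrier f)

/-- The boundary of the standard `n`-simplex in `ℝ^(n+1)`; it is empty for `n = 0`. -/
def simplexBoundary (n : ℕ) : Space where
  dim := n + 1
  carrier := {x | (∀ i, 0 ≤ x i) ∧ ∑ i, x i = 1 ∧ ∃ i, x i = 0}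

/-- A PL sphere (of dimension `n - 1` for some `n ≥ 0`; the sphere of dimension `-1` is empty). -/
def IsPLSphere (P : Space) : Prop := ∃ n : ℕ, PLIso P (simplexBoundary n)

/-- The join `X * Y`: the points `((1 - t) x, t y, t)` with `x ∈ X`, `y ∈ Y`, `0 ≤ t ≤ 1`
(with `X * Y = X` when `Y` is empty and `X * Y = Y` when `X` is empty). -/
def join (X Y : Space) : Space where
  dim := X.dim + Y.dim + 1
  carrier := {z | (∃ x ∈ X.carrier, z = Fin.snoc (α := fun _ => ℝ) (Fin.append x 0) 0) ∨
    (∃ y ∈ Y.carrier, z = Fin.snoc (α := fun _ => ℝ) (Fin.append 0 y) 1) ∨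
    ∃ x ∈ X.carrier, ∃ y ∈ Y.carrier, ∃ t : ℝ, 0 ≤ t ∧ t ≤ 1 ∧
      z = Fin.snoc (α := fun _ => ℝ) (Fin.append ((1 - t) • x) (t • y)) t}

/-- The `0`-sphere `{-1, 1}` in `ℝ^1`. -/
def zeroSphere : Space where
  dim := 1
  carrier := {fun _ => -1, fun _ => 1}

/-- The suspension, that is, the join with the `0`-sphere. -/
def susp (X : Space) : Space := join zeroSphere X

/-- The link of the vertex `v` in the geometric simplicial complex `K`. -/
def vertexLink {N : ℕ} (K : Geometry.SimplicialComplex ℝ (Fin N → ℝ)) (v : Fin N → ℝ) : Space where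
  dim := N
  carrier := {x | ∃ s : Finset (Fin N → ℝ), s.Nonempty ∧ v ∉ s ∧ insert v s ∈ K.faces ∧
    x ∈ convexHull ℝ (s : Set (Fin N → ℝ))}

/-- One step of the recursion: `T` is the class of the spaces of type less than `n`, and `A` is the
class of the spaces of type `1`. For `n ≥ 2`, a space of type `n` is a compact polyhedron such that
for every triangulation (a finite geometric simplicial complex with a PL isomorphism from its
underlying space to the polyhedron) every vertex link is PL isomorphic to an iterated suspension of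
`X` or of a join `X * Y`, where `X` and `Y` are in `T`. -/
def TypeStep (A T : Space → Prop) : ℕ → Space → Prop
  | 0, P => IsPLSphere P
  | 1, P => A P
  | _ + 2, P => IsPolyhedron P.carrier ∧
      ∀ (M : ℕ) (K : Geometry.SimplicialComplex ℝ (Fin M → ℝ)), K.faces.Finite →
        PLIso ⟨M, K.space⟩ P → ∀ v ∈ K.vertices,
          (∃ (k : ℕ) (X : Space), T X ∧ PLIso (vertexLink K v) (susp^[k] X)) ∨
          (∃ (k : ℕ) (X Y : Space), T X ∧ T Y ∧ PLIso (vertexLink K v) (susp^[k] (join X Y)))

/-- The spaces of type less than `n`. -/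
def TypeLT (A : Space → Prop) : ℕ → Space → Prop
  | 0, _ => False
  | n + 1, P => TypeLT A n P ∨ TypeStep A (TypeLT A n) n P

/-- The spaces of type `n`, when `A` is the class of the spaces of type `1`. -/
def IsType (A : Space → Prop) (n : ℕ) (P : Space) : Prop := TypeStep A (TypeLT A n) n P

/-- The polyhedron `P` has dimension at most `d`: it is a finite union of simplices with at most
`d + 1` vertices each. -/
def DimLE {N : ℕ} (P : Set (Fin N → ℝ)) (d : ℕ) : Prop :=
  ∃ F : Set (Finset (Fin N → ℝ)), F.Finite ∧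
    (∀ s ∈ F, AffineIndependent ℝ ((↑) : s → Fin N → ℝ) ∧ s.card ≤ d + 1) ∧
    P = ⋃ s ∈ F, convexHull ℝ (s : Set (Fin N → ℝ))

end Pool.Agent.FinType
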