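import Pool.Agent.FinType.Defs

open Set

namespace Pool.Agent.FinType

/-- A simplex with more than `c` affinely independent vertices is not covered by finitely many affine spans
of sets with at most `c` points. -/
theorem card_le_of_cover {E : Type*} [NormedAddCommGroup E] [NormedSpace ℝ E] {c : ℕ} {t : Finset E}
    (ht : AffineIndependent ℝ ((↑) : t → E)) (F : Set (Finset E)) (hF : F.Finite)
    (hc : ∀ s ∈ F, s.card ≤ c)
    (h : convexHull ℝ (t : Set E) ⊆ ⋃ s ∈ F, (affineSpan ℝ (s : Set E) : Set E)) : t.card ≤ c := by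
  classical
  by_contra hcon
  push Not at hcon
  obtain ⟨v0, hv0⟩ : t.Nonempty := by
    rw [← Finset.card_pos]
    omega
  let ι := {x // x ∈ t.erase v0}
  let L : (ι → ℝ) →ₗ[ℝ] E := Fintype.linearCombination ℝ (fun i : ι => (i : E) - v0)
  let ψ : (ι → ℝ) →ᵃ[ℝ] E := L.toAffineMap + AffineMap.const ℝ (ι → ℝ) v0
  have hψ : ∀ x : ι → ℝ, ψ x = (∑ i, x i • ((i : E) - v0)) + v0 := by
    intro x
    simp only [ψ, L, AffineMap.coe_add, Pi.add_apply, AffineMap.const_apply,
      LinearMap.coe_toAffineMap, Fintype.linearCombination_apply]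
  let U : Set (ι → ℝ) := {x | (∀ i, 0 < x i) ∧ ∑ i, x i < 1}
  have hUo : IsOpen U := by
    have h1 : IsOpen {x : ι → ℝ | ∀ i, 0 < x i} := by
      simp only [Set.ofPred_forall]
      exact isOpen_iInter_of_finite fun i => isOpen_lt continuous_const (continuous_apply i)
    have h2 : IsOpen {x : ι → ℝ | ∑ i, x i < 1} :=
      isOpen_lt (by fun_prop) continuous_const
    exact h1.inter h2
  have hUn : U.Nonempty := by
    refine ⟨fun _ => 1 / ((Fintype.card ι : ℝ) + 1), fun i => by positivity, ?_⟩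
    rw [Finset.sum_const, Finset.card_univ, nsmul_eq_mul, mul_one_div, div_lt_one (by positivity)]
    linarith
  have hUc : ∀ x ∈ U, ψ x ∈ convexHull ℝ (t : Set E) := by
    intro x hx
    have h1 : ψ x = ∑ o : Option ι, (Option.elim o (1 - ∑ i, x i) x) •
        (Option.elim o v0 (fun i => (i : E))) := by
      rw [Fintype.sum_option, hψ]
      simp only [Option.elim]
      simp only [smul_sub, Finset.sum_sub_distrib, ← Finset.sum_smul, sub_smul, one_smul]
      abel
    rw [h1]
    refine (convex_convexHull ℝ (t : Set E)).sum_mem ?_ ?_ ?_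
    · intro o _
      cases o with
      | none => simpa using hx.2.le
      | some i => exact (hx.1 i).le
    · rw [Fintype.sum_option]
      simp
    · intro o _
      apply subset_convexHull
      cases o with
      | none => exact hv0
      | some i => exact Finset.mem_of_mem_erase i.2
  have hnull : ∀ s ∈ F, MeasureTheory.volume
      (((affineSpan ℝ (s : Set E)).comap ψ : AffineSubspace ℝ (ι → ℝ)) : Set (ι → ℝ)) = 0 := by
    intro s hs
    apply MeasureTheory.Measure.addHaar_affineSubspace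
    intro htop
    have hsub : (t : Set E) ⊆ affineSpan ℝ (s : Set E) := by
      intro v hv
      by_cases hvv : v = v0
      · have h0 : (0 : ι → ℝ) ∈ (affineSpan ℝ (s : Set E)).comap ψ := by
          rw [htop]
          exact AffineSubspace.mem_top ℝ _ _
        rw [AffineSubspace.mem_comap, hψ] at h0
        rw [hvv]
        simpa using h0
      · have hvι : v ∈ t.erase v0 := Finset.mem_erase.mpr ⟨hvv, hv⟩
        have h0 : (Pi.single (⟨v, hvι⟩ : ι) (1 : ℝ) : ι → ℝ) ∈
            (affineSpan ℝ (s : Set E)).comap ψ := by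
          rw [htop]
          exact AffineSubspace.mem_top ℝ _ _
        rw [AffineSubspace.mem_comap, hψ, Finset.sum_eq_single (⟨v, hvι⟩ : ι)] at h0
        · simpa using h0
        · intro b _ hb
          rw [Pi.single_eq_of_ne hb, zero_smul]
        · intro hcon2
          exact absurd (Finset.mem_univ _) hcon2
    have h1 := ht.card_le_card_of_subset_affineSpan hsub
    have h2 := hc s hs
    omega
  have hsubU : U ⊆ ⋃ s ∈ F,
      (((affineSpan ℝ (s : Set E)).comap ψ : AffineSubspace ℝ (ι → ℝ)) : Set (ι → ℝ)) := by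
    intro x hx
    have h1 := h (hUc x hx)
    rw [Set.mem_iUnion₂] at h1 ⊢
    obtain ⟨s, hs, hxs⟩ := h1
    exact ⟨s, hs, hxs⟩
  have hU0 : MeasureTheory.volume U = 0 :=
    MeasureTheory.measure_mono_null hsubU
      ((MeasureTheory.measure_biUnion_null_iff hF.countable).mpr hnull)
  exact absurd hU0 (hUo.measure_pos MeasureTheory.volume hUn).ne'

/-- a linear map injective on a simplex maps its vertices to affinely independent points -/
theorem affineIndependent_image_of_injOn {E F : Type*} [AddCommGroup E] [Module ℝ E] [AddCommGroup F]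
    [Module ℝ F] [DecidableEq F] (L : E →ₗ[ℝ] F) {s : Finset E}
    (hs : AffineIndependent ℝ ((↑) : s → E)) (hL : InjOn L (convexHull ℝ (s : Set E))) :
    AffineIndependent ℝ (fun x : {x // x ∈ s.image L} => (x : F)) ∧ (s.image L).card = s.card := by
  classical
  have hinj : Set.InjOn L (s : Set E) := hL.mono (subset_convexHull ℝ _)
  have hA : AffineIndependent ℝ (fun x : s => L (x : E)) := by
    rw [affineIndependent_iff]
    intro t w hw hsum e he
    obtain ⟨w', hw'⟩ : ∃ w' : s → ℝ, w' = fun e => if e ∈ t then w e else 0 := ⟨_, rfl⟩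
    have hw1 : ∑ i, w' i = 0 := by
      rw [hw', Finset.sum_ite_mem, Finset.univ_inter]; exact hw
    have hw2 : ∑ i, w' i • L (i : E) = 0 := by
      have : ∀ i : s, w' i • L (i : E) = if i ∈ t then w i • L (i : E) else 0 := by
        intro i; rw [hw']; dsimp only; split_ifs <;> simp
      rw [Finset.sum_congr rfl (fun i _ => this i), Finset.sum_ite_mem, Finset.univ_inter]
      exact hsum
    have hn : 0 < Fintype.card s := Fintype.card_pos_iff.2 ⟨e⟩
    have hnR : (0:ℝ) < (Fintype.card s : ℝ) := by exact_mod_cast hn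
    have hS : 0 ≤ ∑ i, |w' i| := Finset.sum_nonneg (fun i _ => abs_nonneg _)
    obtain ⟨ε, hε⟩ : ∃ ε : ℝ, ε = 1 / ((Fintype.card s : ℝ) * (1 + ∑ i, |w' i|)) := ⟨_, rfl⟩
    have hε0 : 0 < ε := by rw [hε]; positivity
    have hb : ∀ i, 0 ≤ 1 / (Fintype.card s : ℝ) + ε * w' i := by
      intro i
      have h1 : |w' i| ≤ ∑ i, |w' i| :=
        Finset.single_le_sum (f := fun i => |w' i|) (fun i _ => abs_nonneg _) (Finset.mem_univ i)
      have h2 : ε * (1 + ∑ i, |w' i|) = 1 / (Fintype.card s : ℝ) := by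
        rw [hε]; field_simp
      have h3 : -|w' i| ≤ w' i := neg_abs_le _
      have h4 : ε * (-(1 + ∑ i, |w' i|)) ≤ ε * w' i :=
        mul_le_mul_of_nonneg_left (by linarith) hε0.le
      linarith
    have hx : ∑ i : s, (1 / (Fintype.card s : ℝ)) • (i : E) ∈ convexHull ℝ (s : Set E) := by
      apply (convex_convexHull ℝ _).sum_mem
      · intro i _; positivity
      · rw [Finset.sum_const, Finset.card_univ, nsmul_eq_mul]; field_simp
      · intro i _; exact subset_convexHull ℝ _ i.2
    have hy : ∑ i : s, (1 / (Fintype.card s : ℝ) + ε * w' i) • (i : E)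
        ∈ convexHull ℝ (s : Set E) := by
      apply (convex_convexHull ℝ _).sum_mem
      · intro i _; exact hb i
      · rw [Finset.sum_add_distrib, ← Finset.mul_sum, hw1, Finset.sum_const, Finset.card_univ,
          nsmul_eq_mul]; field_simp; ring
      · intro i _; exact subset_convexHull ℝ _ i.2
    have e1 : ∑ i : s, (1 / (Fintype.card s : ℝ) + ε * w' i) • (i : E) =
        ∑ i : s, (1 / (Fintype.card s : ℝ)) • (i : E) + ε • ∑ i : s, w' i • (i : E) := by
      rw [Finset.smul_sum, ← Finset.sum_add_distrib]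
      refine Finset.sum_congr rfl (fun i _ => ?_)
      rw [add_smul, mul_smul]
    have e2 : L (∑ i : s, w' i • (i : E)) = 0 := by
      rw [map_sum, ← hw2]
      refine Finset.sum_congr rfl (fun i _ => ?_)
      rw [map_smul]
    have hxy : L (∑ i : s, (1 / (Fintype.card s : ℝ)) • (i : E)) =
        L (∑ i : s, (1 / (Fintype.card s : ℝ) + ε * w' i) • (i : E)) := by
      rw [e1, map_add, map_smul, e2, smul_zero, add_zero]
    have hxy' := hL hx hy hxy
    have hz : ∑ i : s, w' i • (i : E) = 0 := by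
      rw [e1] at hxy'
      have h5 : ε • ∑ i : s, w' i • (i : E) = 0 := left_eq_add.1 hxy'
      exact (smul_eq_zero.1 h5).resolve_left hε0.ne'
    have h6 := (affineIndependent_iff.1 hs) Finset.univ w' hw1 hz e (Finset.mem_univ e)
    rw [hw'] at h6
    simpa [he] using h6
  refine ⟨?_, Finset.card_image_of_injOn hinj⟩
  have hex : ∀ x : {x // x ∈ s.image L}, ∃ y : s, L (y : E) = x := by
    intro x
    obtain ⟨y, hy, hyx⟩ := Finset.mem_image.1 x.2
    exact ⟨⟨y, hy⟩, hyx⟩
  choose f hf using hex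
  have hfi : Function.Injective f := by
    intro a b hab
    apply Subtype.ext
    rw [← hf a, ← hf b, hab]
  have := hA.comp_embedding ⟨f, hfi⟩
  have he : (fun x : {x // x ∈ s.image L} => (x : F)) =
      (fun x : s => L (x : E)) ∘ (⟨f, hfi⟩ : {x // x ∈ s.image L} ↪ s) := by
    funext x
    exact (hf x).symm
  rw [he]
  exact this

/-- covered by finitely many affine spans of sets with at most `c` points -/
def CovBy {N : ℕ} (c : ℕ) (P : Set (Fin N → ℝ)) : Prop :=
  ∃ F : Set (Finset (Fin N → ℝ)), F.Finite ∧ (∀ s ∈ F, s.card ≤ c) ∧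
    P ⊆ ⋃ s ∈ F, (affineSpan ℝ (s : Set (Fin N → ℝ)) : Set (Fin N → ℝ))

theorem CovBy.mono {N c : ℕ} {P Q : Set (Fin N → ℝ)} (h : P ⊆ Q) (hQ : CovBy c Q) : CovBy c P := by
  obtain ⟨F, hF, hc, hs⟩ := hQ
  exact ⟨F, hF, hc, h.trans hs⟩

theorem CovBy.card_le {N c : ℕ} {t : Finset (Fin N → ℝ)}
    (ht : AffineIndependent ℝ ((↑) : t → Fin N → ℝ))
    (h : CovBy c (convexHull ℝ (t : Set (Fin N → ℝ)))) : t.card ≤ c := by
  obtain ⟨F, hF, hc, hs⟩ := h
  exact card_le_of_cover ht F hF hc hs

theorem IsPolyhedron.image {a b : ℕ} (L : (Fin a → ℝ) →ₗ[ℝ] (Fin b → ℝ))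
    (hL : Function.Injective L) {P : Set (Fin a → ℝ)} (hP : IsPolyhedron P) :
    IsPolyhedron (L '' P) := by
  obtain ⟨F, hF, hS, rfl⟩ := hP
  refine ⟨(fun S => L '' S) '' F, hF.image _, ?_, ?_⟩
  · rintro _ ⟨S, hSF, rfl⟩
    obtain ⟨s, hs, hi, rfl⟩ := hS S hSF
    refine ⟨s.image L, hs.image _, (affineIndependent_image_of_injOn L hi hL.injOn).1, ?_⟩
    rw [Finset.coe_image]
    exact L.image_convexHull _
  · rw [sUnion_image, sUnion_eq_biUnion, image_iUnion₂]

theorem covBy_of_graph {a b c : ℕ} {P : Set (Fin a → ℝ)} {Q : Set (Fin b → ℝ)}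
    (f : (Fin a → ℝ) → (Fin b → ℝ)) (hf : BijOn f P Q) (hg : IsPolyhedron (graph P f))
    (hQ : CovBy c Q) : CovBy c P := by
  obtain ⟨F, hF, hS, hgF⟩ := hg
  let p1 : (Fin (a + b) → ℝ) →ₗ[ℝ] (Fin a → ℝ) := LinearMap.funLeft ℝ ℝ (Fin.castAdd b)
  let p2 : (Fin (a + b) → ℝ) →ₗ[ℝ] (Fin b → ℝ) := LinearMap.funLeft ℝ ℝ (Fin.natAdd a)
  have hp1 : ∀ (x : Fin a → ℝ) (y : Fin b → ℝ), p1 (Fin.append x y) = x := by
    intro x y; ext i; simp [p1, LinearMap.funLeft_apply]
  have hp2 : ∀ (x : Fin a → ℝ) (y : Fin b → ℝ), p2 (Fin.append x y) = y := by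
    intro x y; ext i; simp [p2, LinearMap.funLeft_apply]
  choose! s hs0 hsi hse using hS
  have hsub : ∀ S ∈ F, convexHull ℝ (s S : Set (Fin (a + b) → ℝ)) ⊆ graph P f := by
    intro S hSF z hz
    rw [hgF]
    refine ⟨S, hSF, ?_⟩
    rw [hse S hSF]; exact hz
  refine ⟨(fun S => (s S).image p1) '' F, hF.image _, ?_, ?_⟩
  · rintro _ ⟨S, hSF, rfl⟩
    have hinj : InjOn p2 (convexHull ℝ (s S : Set (Fin (a + b) → ℝ))) := by
      intro z hz w hw hzw
      obtain ⟨x, hx, rfl⟩ := hsub S hSF hz
      obtain ⟨y, hy, rfl⟩ := hsub S hSF hw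
      have hxy : f x = f y := by simpa [hp2] using hzw
      have := hf.injOn hx hy hxy
      subst this; rfl
    have h2 := affineIndependent_image_of_injOn p2 (hsi S hSF) hinj
    have h3 : ((s S).image p2).card ≤ c := by
      refine CovBy.card_le h2.1 (hQ.mono ?_)
      rw [Finset.coe_image, ← p2.image_convexHull]
      rintro _ ⟨z, hz, rfl⟩
      obtain ⟨x, hx, rfl⟩ := hsub S hSF hz
      simp only [hp2]
      exact hf.mapsTo hx
    calc ((s S).image p1).card ≤ (s S).card := Finset.card_image_le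
      _ = _ := h2.2.symm
      _ ≤ c := h3
  · intro x hx
    have : Fin.append x (f x) ∈ ⋃₀ F := by rw [← hgF]; exact ⟨x, hx, rfl⟩
    obtain ⟨S, hSF, hxS⟩ := this
    refine mem_biUnion (mem_image_of_mem _ hSF) ?_
    rw [hse S hSF] at hxS
    apply convexHull_subset_affineSpan
    simp only [Finset.coe_image]
    rw [← p1.image_convexHull]
    exact ⟨_, hxS, hp1 _ _⟩

section link

variable {N : ℕ} (K : Geometry.SimplicialComplex ℝ (Fin N → ℝ)) (hK : K.faces.Finite)
  (v : Fin N → ℝ)

include hK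

theorem finite_linkFaces :
    {s : Finset (Fin N → ℝ) | s.Nonempty ∧ v ∉ s ∧ insert v s ∈ K.faces}.Finite :=
  hK.subset fun _ hs => K.down_closed hs.2.2 (Finset.subset_insert _ _) hs.1

theorem isPolyhedron_vertexLink : IsPolyhedron (vertexLink K v).carrier := by
  refine ⟨(fun s : Finset (Fin N → ℝ) => convexHull ℝ (s : Set (Fin N → ℝ))) ''
    {s : Finset (Fin N → ℝ) | s.Nonempty ∧ v ∉ s ∧ insert v s ∈ K.faces},
    (finite_linkFaces K hK v).image _, ?_, ?_⟩
  · rintro _ ⟨s, hs, rfl⟩
    exact ⟨s, hs.1, K.indep (K.down_closed hs.2.2 (Finset.subset_insert _ _) hs.1), rfl⟩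
  · refine Set.ext fun x => ⟨?_, ?_⟩
    · rintro ⟨s, h1, h2, h3, hx⟩
      exact ⟨_, ⟨s, ⟨h1, h2, h3⟩, rfl⟩, hx⟩
    · rintro ⟨_, ⟨s, ⟨h1, h2, h3⟩, rfl⟩, hx⟩
      exact ⟨s, h1, h2, h3, hx⟩

theorem covBy_vertexLink {c : ℕ} (h : CovBy (c + 1) K.space) :
    CovBy c (vertexLink K v).carrier := by
  refine ⟨{s : Finset (Fin N → ℝ) | s.Nonempty ∧ v ∉ s ∧ insert v s ∈ K.faces},
    finite_linkFaces K hK v, ?_, ?_⟩
  · rintro s ⟨hs, hv, hin⟩
    have := CovBy.card_le (K.indep hin) (h.mono (K.convexHull_subset_space hin))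
    rw [Finset.card_insert_of_notMem hv] at this
    exact Nat.le_of_succ_le_succ this
  · rintro x ⟨s, hs, hv, hin, hx⟩
    refine mem_biUnion (x := s) ⟨hs, hv, hin⟩ (convexHull_subset_affineSpan _ hx)

end link

theorem PLIso.refl {P : Space} (hP : IsPolyhedron P.carrier) : PLIso P P := by
  refine ⟨id, bijOn_id _, continuousOn_id, ?_⟩
  let L : (Fin P.dim → ℝ) →ₗ[ℝ] (Fin (P.dim + P.dim) → ℝ) :=
    { toFun := fun x => Fin.append x x
      map_add' := by
        intro x y; ext i
        refine Fin.addCases (fun j => ?_) (fun j => ?_) i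
        · rw [Pi.add_apply, Fin.append_left, Fin.append_left, Fin.append_left]; rfl
        · rw [Pi.add_apply, Fin.append_right, Fin.append_right, Fin.append_right]; rfl
      map_smul' := by
        intro r x; ext i
        refine Fin.addCases (fun j => ?_) (fun j => ?_) i
        · rw [Pi.smul_apply, Fin.append_left, Fin.append_left]; rfl
        · rw [Pi.smul_apply, Fin.append_right, Fin.append_right]; rfl }
  have hL : Function.Injective L := by
    intro x y hxy
    ext i
    have := congrFun hxy (Fin.castAdd P.dim i)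
    simpa [L] using this
  exact hP.image L hL

theorem isPLSphere_of_empty {P : Space} (h : P.carrier = ∅) : IsPLSphere P := by
  refine ⟨0, fun _ => 0, ?_, ?_, ?_⟩
  · have h0 : (simplexBoundary 0).carrier = ∅ := by
      refine eq_empty_of_subset_empty ?_
      have key : ∀ x : Fin 1 → ℝ, ∑ i, x i = 1 → (∃ i, x i = 0) → False := by
        rintro x h1 ⟨i, h2⟩
        rw [Fin.sum_univ_one] at h1
        rw [Subsingleton.elim i 0] at h2
        linarith
      rintro x ⟨-, h1, h2⟩
      exact key x h1 h2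
    rw [h, h0]; exact bijOn_empty _
  · rw [h]; exact continuousOn_empty _
  · rw [h]; exact ⟨∅, finite_empty, by simp, by simp [graph]⟩

theorem typeLT_of {A : Space → Prop} {m n : ℕ} (h : m < n) {P : Space} (hP : IsType A m P) :
    TypeLT A n P := by
  induction n with
  | zero => omega
  | succ n ih =>
    rcases Nat.lt_succ_iff_lt_or_eq.1 h with h' | rfl
    · exact Or.inl (ih h')
    · exact Or.inr hP

theorem main (A : Space → Prop) : ∀ (c : ℕ) (P : Space), IsPolyhedron P.carrier →
    CovBy c P.carrier → (c = 0 → IsType A 0 P) ∧ (0 < c → ∀ n, c + 1 ≤ n → IsType A n P) := by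
  intro c
  induction c with
  | zero =>
    intro P _ hc
    refine ⟨fun _ => ?_, fun h => absurd h (lt_irrefl 0)⟩
    refine isPLSphere_of_empty ?_
    obtain ⟨F, -, hF, hs⟩ := hc
    refine eq_empty_of_subset_empty (hs.trans ?_)
    intro x hx
    obtain ⟨s, hs, hx⟩ := mem_iUnion₂.1 hx
    have := Finset.card_eq_zero.1 (Nat.le_zero.1 (hF s hs))
    subst this
    simp at hx
  | succ c ih =>
    intro P hP hc
    refine ⟨fun h => absurd h (Nat.succ_ne_zero _), fun _ n hn => ?_⟩
    obtain ⟨n, rfl⟩ : ∃ m, n = m + 2 := ⟨n - 2, by omega⟩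
    refine ⟨hP, fun M K hK hiso v hv => Or.inl ⟨0, vertexLink K v, ?_, ?_⟩⟩
    · obtain ⟨f, hf, -, hg⟩ := hiso
      have hKc : CovBy (c + 1) K.space := covBy_of_graph f hf hg hc
      have hl := covBy_vertexLink K hK v hKc
      have hlp := isPolyhedron_vertexLink K hK v
      obtain ⟨h0, h1⟩ := ih (vertexLink K v) hlp hl
      rcases Nat.eq_zero_or_pos c with hc0 | hc0
      · exact typeLT_of (by omega) (h0 hc0)
      · exact typeLT_of (m := c + 1) (by omega) (h1 hc0 (c + 1) le_rfl)
    · exact PLIso.refl (isPolyhedron_vertexLink K hK v)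

theorem isType_of_dimLE (A : Space → Prop) (P : Space) (d : ℕ) (hP : IsPolyhedron P.carrier)
    (hd : DimLE P.carrier d) (n : ℕ) (hn : d + 2 ≤ n) : IsType A n P := by
  obtain ⟨F, hF, hs, hPF⟩ := hd
  refine (main A (d + 1) P hP ⟨F, hF, fun s hs' => (hs s hs').2, ?_⟩).2 (by omega) n (by omega)
  rw [hPF]
  exact iUnion₂_mono fun s _ => convexHull_subset_affineSpan _

theorem isType_of_dim (A : Space → Prop) (P : Space) (hP : IsPolyhedron P.carrier) (n : ℕ)
    (hn : P.dim + 2 ≤ n) : IsType A n P := by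
  refine isType_of_dimLE A P P.dim hP ?_ n hn
  obtain ⟨F, hF, hS, hPF⟩ := hP
  choose! s hs0 hsi hse using hS
  refine ⟨s '' F, hF.image _, ?_, ?_⟩
  · rintro _ ⟨S, hSF, rfl⟩
    refine ⟨hsi S hSF, ?_⟩
    have := (hsi S hSF).card_le_finrank_succ
    have h2 := Submodule.finrank_le (vectorSpan ℝ (Set.range ((↑) : (s S) → Fin P.dim → ℝ)))
    rw [Module.finrank_fin_fun] at h2
    rw [Fintype.card_coe] at this
    omega
  · rw [hPF, sUnion_eq_biUnion, biUnion_image]
    exact iUnion₂_congr fun S hSF => hse S hSF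

end Pool.Agent.FinType
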